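import Mathlib
import Pool.Agent.H17.UConv

set_option autoImplicit false

namespace Pool.Agent.Results.MP_76989b_gt.Q1
open Set Filter Topology Pool.Agent.H17.UConv

/-- Quasicontinuity of a real function. -/
def QC {X : Type} [TopologicalSpace X] (f : X → ℝ) : Prop :=
  ∀ (x : X) (U : Set X) (V : Set ℝ), IsOpen U → x ∈ U → IsOpen V → f x ∈ V →
    ∃ W, IsOpen W ∧ W.Nonempty ∧ W ⊆ U ∧ f '' W ⊆ V

def MinBdd {X : Type} [TopologicalSpace X] (A : Set X) : Prop :=
  A ⊆ closure (interior A) ∧ interior (closure A) ⊆ A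

/-- `ω`-covers by minimally bounded sets. -/
def OmegaS {X : Type} [TopologicalSpace X] (𝒰 : Set (Set X)) : Prop :=
  (∀ U ∈ 𝒰, MinBdd U) ∧ ∀ F : Set X, F.Finite → ∃ U ∈ 𝒰, F ⊆ U

/-- `S₁(Ω^s, Γ^s)`, in the strong form: each point misses `U n` for finitely many indices `n`. -/
def S1 (X : Type) [TopologicalSpace X] : Prop :=
  ∀ 𝒰 : ℕ → Set (Set X), (∀ n, OmegaS (𝒰 n)) →
    ∃ U : ℕ → Set X, (∀ n, U n ∈ 𝒰 n) ∧ ∀ x, {n | x ∉ U n}.Finite

theorem result : ∃ (X : Type) (_ : TopologicalSpace X), T2Space X ∧ S1 X ∧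
    ∃ (f : {f : X → ℝ // QC f}) (A : Set {f : X → ℝ // QC f}), f ∈ closure A ∧
      ¬ ∃ s : ℕ → {f : X → ℝ // QC f}, (∀ n, s n ∈ A) ∧ Tendsto s atTop (𝓝 f) := by
  classical
  obtain ⟨p, q, h1, h2, h3, h4, h5⟩ := conv
  let φ : C ⊕ Bool → Filter (ℕ × Bool) := Sum.elim
    (fun x => map (·, false) (q x : Filter ℕ) ⊔ map (·, true) (q x : Filter ℕ))
    fun b => map (·, b) (p : Filter ℕ)
  have hφ : ∀ z, (φ z).NeBot := by
    rintro (x | b)
    · exact sup_neBot.2 (Or.inl map_neBot)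
    · exact map_neBot
  have hc : ∀ (u : Ultrafilter ℕ) (b : Bool), (u : Filter ℕ) ≤ cofinite →
      map (·, b) (u : Filter ℕ) ≤ cofinite := fun u b h =>
    ((Prod.mk_left_injective b).tendsto_cofinite.mono_left h :)
  have hd : ∀ (u v : Ultrafilter ℕ) (b c : Bool), u ≠ v ∨ b ≠ c →
      Disjoint (map (·, b) (u : Filter ℕ)) (map (·, c) (v : Filter ℕ)) := fun u v b c h => by
    rcases h with h | h
    · obtain ⟨A, hA, B, hB, h⟩ := Filter.disjoint_iff.1 (Ultrafilter.disjoint_iff_not_le.2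
        fun e => h (Ultrafilter.coe_le_coe.1 e))
      exact Filter.disjoint_iff.2 ⟨Prod.fst ⁻¹' A, hA, Prod.fst ⁻¹' B, hB, h.preimage _⟩
    · exact Filter.disjoint_iff.2 ⟨Prod.snd ⁻¹' {b}, mem_map.2 (univ_mem' fun _ => rfl),
        Prod.snd ⁻¹' {c}, mem_map.2 (univ_mem' fun _ => rfl), (disjoint_singleton.2 h).preimage _⟩
  let F : Set C → Psi φ → ℝ := fun T => Sum.elim (fun m => if m.2 then 1 else 0)
    (Sum.elim (fun x => if x ∈ T then 1 else 0) fun b => if b then 1 else 0)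
  have hF : ∀ T, QC (F T) := fun T x U V hU hx hV h => by
    have : ∃ m, Sum.inl m ∈ U ∧ F T (.inl m) = F T x := by
      rcases x with m | x | b
      · exact ⟨m, hx, rfl⟩
      · obtain ⟨n, hn⟩ := Ultrafilter.nonempty_of_mem (inter_mem (hU _ hx).1 (hU _ hx).2)
        by_cases h : x ∈ T
        · exact ⟨(n, true), hn.2, by simp [F, h]⟩
        · exact ⟨(n, false), hn.1, by simp [F, h]⟩
      · obtain ⟨n, hn⟩ := Ultrafilter.nonempty_of_mem (f := p) (hU _ hx)
        exact ⟨(n, b), hn, rfl⟩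
    obtain ⟨m, a, b⟩ := this
    exact ⟨_, op_inl {m}, ⟨_, m, rfl, rfl⟩, by rintro _ ⟨_, rfl, rfl⟩; exact a,
      by rintro _ ⟨_, ⟨_, rfl, rfl⟩, rfl⟩; exact b ▸ h⟩
  refine ⟨Psi φ, inferInstance, t2 ?_ ?_, fun 𝒰 h𝒰 => ?_, ⟨F univ, hF _⟩,
    {f | ∃ T : Set C, T.Finite ∧ f.1 = F T}, ?_, fun ⟨s, hs, h⟩ => ?_⟩
  · rintro (x | b)
    exacts [sup_le (hc _ _ (h4 x)) (hc _ _ (h4 x)), hc _ _ h3]
  · rintro (x | b) (y | c) h
    · have : q x ≠ q y := fun e => h (congrArg _ (h1 e))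
      exact disjoint_sup_left.2 ⟨disjoint_sup_right.2 ⟨hd _ _ _ _ (.inl this), hd _ _ _ _ (.inl this)⟩,
        disjoint_sup_right.2 ⟨hd _ _ _ _ (.inl this), hd _ _ _ _ (.inl this)⟩⟩
    · exact disjoint_sup_left.2 ⟨hd _ _ _ _ (.inl (h2 x)), hd _ _ _ _ (.inl (h2 x))⟩
    · exact disjoint_sup_right.2 ⟨hd _ _ _ _ (.inl (h2 y).symm), hd _ _ _ _ (.inl (h2 y).symm)⟩
    · exact hd _ _ _ _ (.inr fun e => h (congrArg _ e))
  · have key : ∀ A : Set (Psi φ), MinBdd A → (∀ b, Sum.inr (Sum.inr b) ∈ A) → Aᶜ.Countable := by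
      intro A hA hb
      have h6 : ∀ b, {n | Sum.inl (n, b) ∈ A} ∈ p := fun b => by
        by_contra hn
        obtain ⟨m, hm⟩ := hit ((op_nb (φ := φ) (z := .inr b) (A := {m | Sum.inl m ∉ A})
          (Ultrafilter.compl_mem_iff_notMem.2 hn)).inter isOpen_interior)
          (mem_closure_iff.1 (hA.1 (hb b)) _ (op_nb (Ultrafilter.compl_mem_iff_notMem.2 hn))
            (Or.inl rfl))
        obtain h' | ⟨_, h', e⟩ := hm.1 <;> cases ‹_ = _›
        exact h' (interior_subset (X := Psi φ) hm.2)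
      refine ((countable_range Sum.inl).union ((h5 _ (inter_mem (h6 false) (h6 true))).image
        fun x => Sum.inr (Sum.inl x))).mono ?_
      rintro (m | x | b) hx
      · exact Or.inl ⟨m, rfl⟩
      · refine Or.inr ⟨x, fun h => hx (hA.2 ?_), rfl⟩
        have h7 : {m | Sum.inl m ∈ A} ∈ φ (.inl x) :=
          ⟨mem_map.2 (mem_of_superset h inter_subset_left),
            mem_map.2 (mem_of_superset h inter_subset_right)⟩
        refine interior_maximal ?_ (op_nb h7) (Or.inl rfl)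
        rintro _ (rfl | ⟨m, hm, rfl⟩)
        · refine mem_closure_iff.2 fun O hO h => ?_
          obtain ⟨m, hm⟩ := Filter.nonempty_of_mem (inter_mem (hO _ h) h7)
          exact ⟨_, hm⟩
        · exact subset_closure hm
      · exact (hx (hb b)).elim
    have : Nonempty (Psi φ) := ⟨.inl default⟩
    have : Inhabited {U : Set (Psi φ) // Uᶜ.Countable} := ⟨⟨univ, by simp⟩⟩
    obtain ⟨s, G, h6, h7⟩ := gam (fun U : {U : Set (Psi φ) // Uᶜ.Countable} => U.1ᶜ) (fun U => U.2)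
      (fun n G U => U.1 ∈ 𝒰 n ∧ (G : Set (Psi φ)) ⊆ U.1) fun n G => by
        obtain ⟨U, a, b⟩ := (h𝒰 n).2 (G ∪ range fun b => Sum.inr (Sum.inr b))
          (G.finite_toSet.union (finite_range _))
        exact ⟨⟨U, key U ((h𝒰 n).1 U a) fun c => b (Or.inr ⟨c, rfl⟩)⟩, a, subset_union_left.trans b⟩
    refine ⟨fun n => (s n).1, fun n => (h6 n).1, fun x => ?_⟩
    by_cases hx : ∃ i, x ∉ (s i).1
    · obtain ⟨i, hi⟩ := hx
      exact eventually_cofinite.1 (Nat.cofinite_eq_atTop ▸ (h7 i x hi).mono fun n hn => (h6 n).2 hn)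
    · exact finite_empty.subset fun n hn => hx ⟨n, hn⟩
  · refine mem_closure_iff.2 fun U hU hx => ?_
    obtain ⟨V, hV, rfl⟩ := isOpen_induced_iff.1 hU
    obtain ⟨I, u, a, b⟩ := isOpen_pi_iff.1 hV _ hx
    refine ⟨⟨F {x | Sum.inr (Sum.inl x) ∈ I}, hF _⟩, b fun z hz => ?_, _,
      I.finite_toSet.preimage (fun _ _ _ _ e => by cases e; rfl), rfl⟩
    have : F {x | Sum.inr (Sum.inl x) ∈ I} z = F univ z := by
      rcases z with m | x | b
      · rfl
      · exact (if_pos hz).trans (if_pos trivial).symm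
      · rfl
    exact (show F _ z ∈ u z from this ▸ (a z hz).2)
  · choose T h6 h7 using hs
    refine not_countable_univ ((countable_iUnion fun n => (h6 n).countable).mono fun x _ => ?_)
    by_contra hn
    have h8 := tendsto_pi_nhds.1 (tendsto_subtype_rng.1 h) (.inr (.inl x))
    rw [show (fun n => (s n).1 (.inr (.inl x))) = fun _ => (0 : ℝ) from funext fun n => by
      rw [h7 n]; exact if_neg fun h => hn (mem_iUnion.2 ⟨n, h⟩)] at h8
    exact zero_ne_one ((tendsto_const_nhds_iff.1 h8).trans (if_pos trivial))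

end Pool.Agent.Results.MP_76989b_gt.Q1
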